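import Mathlib
import Pool.Agent.TwwSep.Menger
import Pool.Agent.LocalConn.Basic

/-!
Menger's theorem in the form needed: if any two vertices of `G` are joined by at most `k`
internally disjoint paths, then any two vertices are separated by few vertices.
-/

namespace H34.LK

open SimpleGraph Pool.Agent.LocalConn

variable {V : Type*}

/-- `HasPaths` from a family of internally disjoint paths indexed by a finset. -/
theorem hasPaths_of_finset {G : SimpleGraph V} {x y : V} {ι : Type*} (s : Finset ι)
    (D : ι → Set V)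
    (h : ∀ i ∈ s, ∃ p : G.Path x y, (∀ v ∈ p.1.support, v = x ∨ v = y ∨ v ∈ D i) ∧
      ∃ v ∈ p.1.support, v ≠ x ∧ v ≠ y)
    (hd : ∀ i ∈ s, ∀ j ∈ s, i ≠ j → ∀ v, v ∈ D i → v ∈ D j → v = x ∨ v = y) :
    HasPaths G x y s.card ∧ (G.Adj x y → HasPaths G x y (s.card + 1)) := by
  classical
  choose p hp1 hp2 using h
  have hinj : ∀ i (hi : i ∈ s) j (hj : j ∈ s), p i hi = p j hj → i = j := by
    intro i hi j hj hij
    by_contra hne
    obtain ⟨v, hv, hvx, hvy⟩ := hp2 i hi
    have h1 := hp1 i hi v hv
    have h2 := hp1 j hj v (hij ▸ hv)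
    rcases h1 with h1 | h1 | h1
    · exact hvx h1
    · exact hvy h1
    rcases h2 with h2 | h2 | h2
    · exact hvx h2
    · exact hvy h2
    rcases hd i hi j hj hne v h1 h2 with h3 | h3
    · exact hvx h3
    · exact hvy h3
  have hdis : ∀ i (hi : i ∈ s) j (hj : j ∈ s), i ≠ j → ∀ v, v ∈ (p i hi).1.support →
      v ∈ (p j hj).1.support → v = x ∨ v = y := by
    intro i hi j hj hne v h1 h2
    rcases hp1 i hi v h1 with h1 | h1 | h1
    · exact Or.inl h1
    · exact Or.inr h1
    rcases hp1 j hj v h2 with h2 | h2 | h2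
    · exact Or.inl h2
    · exact Or.inr h2
    exact hd i hi j hj hne v h1 h2
  let e := s.equivFin.symm
  constructor
  · refine ⟨fun i => p (e i).1 (e i).2, ?_, ?_⟩
    · intro i j hij
      exact e.injective (Subtype.ext (hinj _ (e i).2 _ (e j).2 hij))
    · intro i j hij v hi hj
      exact hdis _ (e i).2 _ (e j).2 (fun h => hij (e.injective (Subtype.ext h))) v hi hj
  · intro hadj
    let q : G.Path x y := ⟨Walk.cons hadj Walk.nil, by simp [hadj.ne]⟩
    have hq : ∀ v, v ∈ q.1.support → v = x ∨ v = y := by
      intro v hv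
      simpa [q] using hv
    refine ⟨Fin.cons q (fun i => p (e i).1 (e i).2), ?_, ?_⟩
    · intro i j
      refine Fin.cases ?_ (fun i => ?_) i <;> refine Fin.cases ?_ (fun j => ?_) j
      · intro _; rfl
      · intro hij
        simp only [Fin.cons_zero, Fin.cons_succ] at hij
        obtain ⟨v, hv, hvx, hvy⟩ := hp2 _ (e j).2
        rcases hq v (hij ▸ hv) with h | h
        · exact absurd h hvx
        · exact absurd h hvy
      · intro hij
        simp only [Fin.cons_zero, Fin.cons_succ] at hij
        obtain ⟨v, hv, hvx, hvy⟩ := hp2 _ (e i).2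
        rcases hq v (hij ▸ hv) with h | h
        · exact absurd h hvx
        · exact absurd h hvy
      · intro hij
        simp only [Fin.cons_succ] at hij
        rw [e.injective (Subtype.ext (hinj _ (e i).2 _ (e j).2 hij))]
    · intro i j
      refine Fin.cases ?_ (fun i => ?_) i <;> refine Fin.cases ?_ (fun j => ?_) j
      · intro h; exact absurd rfl h
      · intro _ v hv _
        exact hq v (by simpa using hv)
      · intro _ v _ hv
        exact hq v (by simpa using hv)
      · intro hij v hi hj
        simp only [Fin.cons_succ] at hi hj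
        exact hdis _ (e i).2 _ (e j).2
          (fun h => hij (by rw [e.injective (Subtype.ext h)])) v hi hj

/-- The number of common neighbours is at most `k`. -/
theorem card_common_le [Fintype V] [DecidableEq V] {G : SimpleGraph V} [DecidableRel G.Adj]
    {k : ℕ} (hG : LocalConnLe G k) {x y : V} (hxy : x ≠ y) :
    (G.neighborFinset x ∩ G.neighborFinset y).card ≤ k := by
  classical
  refine hG x y hxy _ (hasPaths_of_finset _ (fun w => {w}) ?_ ?_).1
  · intro w hw
    rw [Finset.mem_inter, mem_neighborFinset, mem_neighborFinset] at hw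
    refine ⟨⟨Walk.cons hw.1 (Walk.cons hw.2.symm Walk.nil), ?_⟩, ?_, w, ?_, ?_, ?_⟩
    · simp [Walk.cons_isPath_iff, hw.1.ne, hxy, hw.2.ne.symm]
    · intro v hv
      simp at hv
      tauto
    · simp
    · exact hw.1.ne.symm
    · exact hw.2.ne.symm
  · intro i _ j _ hij v hi hj
    simp only [Set.mem_singleton_iff] at hi hj
    exact absurd (hi.symm.trans hj) hij

/-- A walk inside a connected set. -/
theorem exists_walk_of_conn {G H : SimpleGraph V} (hHG : H ≤ G) {D : Set V}
    (hD : TwwSep.Conn H D) {a b : V} (ha : a ∈ D) (hb : b ∈ D) :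
    ∃ q : G.Walk a b, ∀ v ∈ q.support, v ∈ D := by
  have := hD {z | z ∈ D ∧ ∃ q : G.Walk a z, ∀ v ∈ q.support, v ∈ D}
    ⟨a, ha, ha, Walk.nil, by simpa using ha⟩ (by
      rintro z - ⟨hz, q, hq⟩ w hw hzw
      refine ⟨hw, q.concat (hHG hzw), ?_⟩
      intro v hv
      rw [Walk.support_concat] at hv
      simp only [List.mem_append, List.mem_singleton] at hv
      rcases hv with hv | rfl
      · exact hq v hv
      · exact hw)
  exact (this hb).2

/-- Menger: two vertices of a graph with local connectivity at most `k` are separated by at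
most `k` vertices (at most `k - 1` and the edge, if they are adjacent). -/
theorem exists_cut [Fintype V] [DecidableEq V] {G : SimpleGraph V} {k : ℕ}
    (hG : LocalConnLe G k) {x y : V} (hxy : x ≠ y) :
    ∃ A T : Finset V, x ∈ A ∧ y ∉ A ∧ x ∉ T ∧ y ∉ T ∧ Disjoint A T ∧
      (∀ u ∈ A, ∀ v, G.Adj u v → v ∈ A ∨ v ∈ T ∨ (u = x ∧ v = y)) ∧
      T.card ≤ k ∧ (G.Adj x y → T.card + 1 ≤ k) := by
  classical
  let H : SimpleGraph V :=
    { Adj := fun u v => G.Adj u v ∧ (u ≠ x ∧ u ≠ y) ∧ (v ≠ x ∧ v ≠ y)
      symm := ⟨fun u v h => ⟨h.1.symm, h.2.2, h.2.1⟩⟩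
      loopless := ⟨fun u h => h.1.ne rfl⟩ }
  have hHG : H ≤ G := fun u v h => h.1
  let A0 : Set V := {v | G.Adj x v ∧ v ≠ y}
  let B0 : Set V := {v | G.Adj y v ∧ v ≠ x}
  set m := if G.Adj x y then k else k + 1 with hm
  by_cases hcut : ∀ T : Finset V, TwwSep.Sep H A0 B0 ↑T → m ≤ T.card
  · exfalso
    obtain ⟨ι, D, hι, hD, hdis⟩ := TwwSep.menger H A0 B0 m hcut
    have hDxy : ∀ i ∈ ι, ∀ v ∈ D i, v ≠ x ∧ v ≠ y := by
      intro i hi
      obtain ⟨h1, ⟨a, ha, ha0⟩, -⟩ := hD i hi
      apply h1 {v | v ≠ x ∧ v ≠ y} ⟨a, ha, ha0.1.ne.symm, ha0.2⟩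
      intro u _ _ v _ huv
      exact huv.2.2
    have hp := hasPaths_of_finset (G := G) (x := x) (y := y) ι D (by
      intro i hi
      obtain ⟨h1, ⟨a, ha, ha0⟩, b, hb, hb0⟩ := hD i hi
      obtain ⟨q, hq⟩ := exists_walk_of_conn hHG h1 ha hb
      let q' := q.toPath
      have hq' : ∀ v ∈ q'.1.support, v ∈ D i := fun v hv =>
        hq v (Walk.support_toPath_subset_support q hv)
      have hxq : x ∉ q'.1.support := fun h => (hDxy i hi x (hq' x h)).1 rfl
      have hyq : y ∉ q'.1.support := fun h => (hDxy i hi y (hq' y h)).2 rfl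
      refine ⟨⟨Walk.cons ha0.1 (q'.1.concat hb0.1.symm), ?_⟩, ?_, a, ?_, (hDxy i hi a ha).1,
        (hDxy i hi a ha).2⟩
      · rw [Walk.cons_isPath_iff, Walk.support_concat, Walk.concat_isPath_iff]
        refine ⟨⟨q'.2, hyq⟩, ?_⟩
        simp only [List.mem_append, List.mem_singleton, not_or]
        exact ⟨hxq, hxy⟩
      · intro v hv
        rw [Walk.support_cons, Walk.support_concat] at hv
        simp only [List.mem_cons, List.mem_append,
          List.not_mem_nil, or_false] at hv
        rcases hv with h | h | h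
        · exact Or.inl h
        · exact Or.inr (Or.inr (hq' v h))
        · exact Or.inr (Or.inl h)
      · rw [Walk.support_cons, Walk.support_concat]
        simp only [List.mem_cons, List.mem_append,
          List.not_mem_nil, or_false]
        exact Or.inr (Or.inl (Walk.start_mem_support _)))
      (by
        intro i hi j hj hij v h1 h2
        exact absurd h2 (Set.disjoint_left.1 (hdis i hi j hj hij) h1))
    rw [hι] at hp
    by_cases hadj : G.Adj x y
    · have := hG x y hxy _ (hp.2 hadj)
      rw [hm, if_pos hadj] at this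
      omega
    · have := hG x y hxy _ hp.1
      rw [hm, if_neg hadj] at this
      omega
  · push Not at hcut
    obtain ⟨T, ⟨U, hAU, hUT, hUB, hcl⟩, hT⟩ := hcut
    refine ⟨insert x (Finset.univ.filter fun v => v ∈ U ∧ v ≠ x ∧ v ≠ y),
      (T.erase x).erase y, by simp, ?_, by simp, by simp, ?_, ?_, ?_, ?_⟩
    · simp [hxy.symm]
    · rw [Finset.disjoint_left]
      intro v hv hvT
      simp only [Finset.mem_insert, Finset.mem_filter, Finset.mem_univ, true_and] at hv
      simp only [Finset.mem_erase] at hvT
      rcases hv with rfl | hv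
      · exact hvT.2.1 rfl
      · exact Set.disjoint_left.1 hUT hv.1 (by simpa using hvT.2.2)
    · intro u hu v huv
      simp only [Finset.mem_insert, Finset.mem_filter, Finset.mem_univ, true_and,
        Finset.mem_erase] at hu ⊢
      rcases hu with rfl | ⟨huU, hux, huy⟩
      · by_cases hvy : v = y
        · right; right; exact ⟨rfl, hvy⟩
        · have hv : v ∈ U ∪ (T : Set V) := hAU ⟨huv, hvy⟩
          rcases hv with hv | hv
          · left; right; exact ⟨hv, huv.ne.symm, hvy⟩
          · right; left; exact ⟨hvy, huv.ne.symm, by simpa using hv⟩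
      · by_cases hvx : v = x
        · left; left; exact hvx
        by_cases hvy : v = y
        · exfalso
          exact Set.disjoint_left.1 hUB huU ⟨hvy ▸ huv.symm, hux⟩
        have hv : v ∈ U ∪ (T : Set V) := hcl u huU v ⟨huv, ⟨hux, huy⟩, hvx, hvy⟩
        rcases hv with hv | hv
        · left; right; exact ⟨hv, hvx, hvy⟩
        · right; left; exact ⟨hvy, hvx, by simpa using hv⟩
    · have h1 : ((T.erase x).erase y).card ≤ T.card :=
        (Finset.card_le_card (Finset.erase_subset _ _)).trans
          (Finset.card_le_card (Finset.erase_subset _ _))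
      by_cases hadj : G.Adj x y
      · rw [hm, if_pos hadj] at hT; omega
      · rw [hm, if_neg hadj] at hT; omega
    · intro hadj
      have h1 : ((T.erase x).erase y).card ≤ T.card :=
        (Finset.card_le_card (Finset.erase_subset _ _)).trans
          (Finset.card_le_card (Finset.erase_subset _ _))
      rw [hm, if_pos hadj] at hT; omega

end H34.LK
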