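import Mathlib
import Pool.Agent.H34.LK.Cut

/-!
Dense regime, part 1: neighbour counts in regular pairs.
-/

namespace H34.LK

set_option linter.unusedSectionVars false

open SimpleGraph Finset Pool.Agent.LocalConn

variable {V : Type*} [Fintype V] [DecidableEq V] (G : SimpleGraph V) [DecidableRel G.Adj]

/-- number of neighbours of `x` in `W` -/
def nW (x : V) (W : Finset V) : ℕ := (W.filter fun v => G.Adj x v).card

/-- edge density as a real number -/
noncomputable def dR (U W : Finset V) : ℝ := (G.edgeDensity U W : ℝ)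

theorem dR_nonneg (U W : Finset V) : 0 ≤ dR G U W := by
  unfold dR; exact_mod_cast G.edgeDensity_nonneg U W

theorem dR_le_one (U W : Finset V) : dR G U W ≤ 1 := by
  unfold dR; exact_mod_cast G.edgeDensity_le_one U W

theorem dR_comm (U W : Finset V) : dR G U W = dR G W U := by
  unfold dR; rw [G.edgeDensity_comm]

theorem card_interedges_eq (U W : Finset V) :
    (G.interedges U W).card = ∑ x ∈ U, nW G x W := by
  rw [interedges_def, Finset.card_filter, Finset.sum_product]
  refine Finset.sum_congr rfl fun x _ => ?_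
  rw [nW, Finset.card_filter]

theorem sum_nW_eq (U W : Finset V) :
    (∑ x ∈ U, (nW G x W : ℝ)) = dR G U W * (U.card * W.card) := by
  have h1 : ((G.interedges U W).card : ℝ) = ∑ x ∈ U, (nW G x W : ℝ) := by
    rw [card_interedges_eq]; push_cast; rfl
  rw [← h1]
  unfold dR
  rw [edgeDensity_def]
  push_cast
  rcases Finset.eq_empty_or_nonempty U with rfl | hU
  · simp
  rcases Finset.eq_empty_or_nonempty W with rfl | hW
  · simp [interedges_def]
  have hU' : (0 : ℝ) < U.card := by exact_mod_cast hU.card_pos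
  have hW' : (0 : ℝ) < W.card := by exact_mod_cast hW.card_pos
  field_simp

theorem nW_le (x : V) (W : Finset V) : nW G x W ≤ W.card := Finset.card_filter_le _ _

/-- the vertices of `U` with too many neighbours in `W` are few -/
theorem card_high_lt {ε : ℝ} (hε : 0 < ε) (hε1 : ε ≤ 1) {U W : Finset V} (hU : U.Nonempty)
    (hW : W.Nonempty) (h : G.IsUniform ε U W) :
    ((U.filter fun x => (dR G U W + ε) * W.card < nW G x W).card : ℝ) < ε * U.card := by
  classical
  by_contra hcon
  push Not at hcon
  set X := U.filter fun x => (dR G U W + ε) * W.card < nW G x W with hX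
  have hW' : (0 : ℝ) < W.card := by exact_mod_cast hW.card_pos
  have hU' : (0 : ℝ) < U.card := by exact_mod_cast hU.card_pos
  have hXpos : (0 : ℝ) < X.card := lt_of_lt_of_le (by positivity) hcon
  have h1 := h (Finset.filter_subset _ _ : X ⊆ U) (Finset.Subset.refl W)
    (by rw [mul_comm]; exact hcon) (by nlinarith)
  have h2 : (X.card : ℝ) * ((dR G U W + ε) * W.card) ≤ ∑ x ∈ X, (nW G x W : ℝ) := by
    rw [← nsmul_eq_mul]
    apply Finset.card_nsmul_le_sum
    intro x hx
    exact (Finset.mem_filter.1 hx).2.le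
  rw [sum_nW_eq] at h2
  have h3 : dR G U W + ε ≤ dR G X W := by
    have : (dR G U W + ε) * (X.card * W.card) ≤ dR G X W * (X.card * W.card) := by linarith
    exact le_of_mul_le_mul_right this (by positivity)
  rw [abs_lt] at h1
  have h4 : dR G X W - dR G U W < ε := h1.2
  linarith

/-- the vertices of `U` with too few neighbours in `W` are few -/
theorem card_low_lt {ε : ℝ} (hε : 0 < ε) (hε1 : ε ≤ 1) {U W : Finset V} (hU : U.Nonempty)
    (hW : W.Nonempty) (h : G.IsUniform ε U W) :
    ((U.filter fun x => (nW G x W : ℝ) < (dR G U W - ε) * W.card).card : ℝ) < ε * U.card := by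
  classical
  by_contra hcon
  push Not at hcon
  set X := U.filter fun x => (nW G x W : ℝ) < (dR G U W - ε) * W.card with hX
  have hW' : (0 : ℝ) < W.card := by exact_mod_cast hW.card_pos
  have hU' : (0 : ℝ) < U.card := by exact_mod_cast hU.card_pos
  have hXpos : (0 : ℝ) < X.card := lt_of_lt_of_le (by positivity) hcon
  have h1 := h (Finset.filter_subset _ _ : X ⊆ U) (Finset.Subset.refl W)
    (by rw [mul_comm]; exact hcon) (by nlinarith)
  have h2 : ∑ x ∈ X, (nW G x W : ℝ) ≤ (X.card : ℝ) * ((dR G U W - ε) * W.card) := by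
    rw [← nsmul_eq_mul]
    apply Finset.sum_le_card_nsmul
    intro x hx
    exact (Finset.mem_filter.1 hx).2.le
  rw [sum_nW_eq] at h2
  have h3 : dR G X W ≤ dR G U W - ε := by
    have : dR G X W * (X.card * W.card) ≤ (dR G U W - ε) * (X.card * W.card) := by linarith
    exact le_of_mul_le_mul_right this (by positivity)
  rw [abs_lt] at h1
  have h4 : -ε < dR G X W - dR G U W := h1.1
  linarith

/-- deviation of the number of neighbours of `x` in `W` from the average -/
noncomputable def dv (U W : Finset V) (x : V) : ℝ := |(nW G x W : ℝ) - dR G U W * W.card|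

theorem dv_nonneg (U W : Finset V) (x : V) : 0 ≤ dv G U W x := abs_nonneg _

theorem sum_dv_le {ε : ℝ} (hε : 0 < ε) (hε1 : ε ≤ 1) {U W : Finset V} (hU : U.Nonempty)
    (hW : W.Nonempty) (h : G.IsUniform ε U W) :
    ∑ x ∈ U, dv G U W x ≤ 3 * ε * U.card * W.card := by
  classical
  set X := U.filter fun x => (dR G U W + ε) * W.card < nW G x W with hX
  set Y := U.filter fun x => (nW G x W : ℝ) < (dR G U W - ε) * W.card with hY
  have hXc := card_high_lt G hε hε1 hU hW h
  have hYc := card_low_lt G hε hε1 hU hW h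
  rw [← hX] at hXc
  rw [← hY] at hYc
  have hW' : (0 : ℝ) < W.card := by exact_mod_cast hW.card_pos
  have key : ∀ x ∈ U, dv G U W x ≤ ε * W.card + (if x ∈ X then (W.card : ℝ) else 0) +
      (if x ∈ Y then (W.card : ℝ) else 0) := by
    intro x hx
    have hn1 : (nW G x W : ℝ) ≤ W.card := by exact_mod_cast nW_le G x W
    have hn0 : (0 : ℝ) ≤ nW G x W := by positivity
    have hd0 := dR_nonneg G U W
    have hd1 := dR_le_one G U W
    have hall : dv G U W x ≤ W.card := by
      unfold dv
      rw [abs_le]
      constructor <;> nlinarith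
    by_cases hxX : x ∈ X
    · rw [if_pos hxX]
      have : (0 : ℝ) ≤ (if x ∈ Y then (W.card : ℝ) else 0) := by split_ifs <;> positivity
      have : 0 ≤ ε * W.card := by positivity
      linarith
    · by_cases hxY : x ∈ Y
      · rw [if_pos hxY, if_neg hxX]
        have : 0 ≤ ε * W.card := by positivity
        linarith
      · rw [if_neg hxX, if_neg hxY]
        have h1 : (nW G x W : ℝ) ≤ (dR G U W + ε) * W.card := by
          by_contra hc
          exact hxX (Finset.mem_filter.2 ⟨hx, not_le.1 hc⟩)
        have h2 : (dR G U W - ε) * W.card ≤ nW G x W := by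
          by_contra hc
          exact hxY (Finset.mem_filter.2 ⟨hx, not_le.1 hc⟩)
        unfold dv
        rw [abs_le]
        constructor <;> nlinarith
  refine (Finset.sum_le_sum key).trans ?_
  rw [Finset.sum_add_distrib, Finset.sum_add_distrib, Finset.sum_const, nsmul_eq_mul,
    Finset.sum_ite_mem, Finset.sum_ite_mem, Finset.sum_const, Finset.sum_const, nsmul_eq_mul,
    nsmul_eq_mul]
  have hX1 : U ∩ X = X := Finset.inter_eq_right.2 (Finset.filter_subset _ _)
  have hY1 : U ∩ Y = Y := Finset.inter_eq_right.2 (Finset.filter_subset _ _)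
  rw [hX1, hY1]
  nlinarith

/-- In `U` there are two vertices with small total deviation. -/
theorem exists_two {U : Finset V} (hU : 2 ≤ U.card) (f : V → ℝ)
    {M : ℝ} (hM : 0 ≤ M) (hf : ∀ x, 0 ≤ f x) (h : ∑ x ∈ U, f x ≤ M * U.card) :
    ∃ x ∈ U, ∃ y ∈ U, x ≠ y ∧ f x ≤ 2 * M ∧ f y ≤ 2 * M := by
  classical
  by_contra hcon
  push Not at hcon
  set X := U.filter fun x => f x ≤ 2 * M with hX
  have hXc : X.card ≤ 1 := by
    rw [Finset.card_le_one]
    intro a ha b hb
    by_contra hab
    have ha' := Finset.mem_filter.1 ha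
    have hb' := Finset.mem_filter.1 hb
    exact absurd hb'.2 (not_le.2 (hcon a ha'.1 b hb'.1 hab ha'.2))
  have hYX : U.card = X.card + (U \ X).card := by
    have := Finset.card_sdiff_add_card_eq_card (show X ⊆ U from Finset.filter_subset _ _)
    omega
  have hYpos : 1 ≤ (U \ X).card := by omega
  have h1 : ((U \ X).card : ℝ) * (2 * M) < ∑ x ∈ U \ X, f x := by
    have : ∑ x ∈ U \ X, (2 * M) < ∑ x ∈ U \ X, f x := by
      apply Finset.sum_lt_sum_of_nonempty (Finset.card_pos.1 hYpos)
      intro x hx
      rw [Finset.mem_sdiff] at hx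
      by_contra hc
      exact hx.2 (Finset.mem_filter.2 ⟨hx.1, not_lt.1 hc⟩)
    simpa [Finset.sum_const, nsmul_eq_mul] using this
  have h2 : ∑ x ∈ U \ X, f x ≤ ∑ x ∈ U, f x :=
    Finset.sum_le_sum_of_subset_of_nonneg Finset.sdiff_subset (fun x _ _ => hf x)
  have h3 : (U.card : ℝ) = X.card + (U \ X).card := by exact_mod_cast hYX
  have h4 : (X.card : ℝ) ≤ 1 := by exact_mod_cast hXc
  have h5 : (1 : ℝ) ≤ (U \ X).card := by exact_mod_cast hYpos
  nlinarith

end H34.LK
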