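import Mathlib
import Pool.Agent.H34.LK.Dense1

/-!
Dense regime, part 2: excess and deficit of the classes of a regular partition.
-/

namespace H34.LK

set_option linter.unusedSectionVars false

open SimpleGraph Finset Pool.Agent.LocalConn

variable {V : Type*} [Fintype V] [DecidableEq V] (G : SimpleGraph V) [DecidableRel G.Adj]

/-- a regular pair of classes of density at least `ε` -/
def Good (ε : ℝ) (U W : Finset V) : Prop := U ≠ W ∧ G.IsUniform ε U W ∧ ε ≤ dR G U W

theorem Good.symm {ε : ℝ} {U W : Finset V} (h : Good G ε U W) : Good G ε W U :=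
  ⟨h.1.symm, h.2.1.symm, by rw [dR_comm]; exact h.2.2⟩

open Classical in
/-- the classes forming a good pair with `U` -/
noncomputable def nb (P : Finpartition (univ : Finset V)) (ε : ℝ) (U : Finset V) :
    Finset (Finset V) := P.parts.filter (Good G ε U)

theorem mem_nb {P : Finpartition (univ : Finset V)} {ε : ℝ} {U W : Finset V} :
    W ∈ nb G P ε U ↔ W ∈ P.parts ∧ Good G ε U W := by
  classical
  simp [nb]

/-- the degree of the vertices of `U` into the good classes -/
noncomputable def DD (P : Finpartition (univ : Finset V)) (ε : ℝ) (U : Finset V) : ℝ :=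
  ∑ W ∈ nb G P ε U, dR G U W * W.card

theorem sum_card_le (P : Finpartition (univ : Finset V)) {s : Finset (Finset V)}
    (hs : s ⊆ P.parts) : ∑ W ∈ s, (W.card : ℝ) ≤ Fintype.card V := by
  have h1 : ∑ W ∈ s, (W.card : ℝ) ≤ ∑ W ∈ P.parts, (W.card : ℝ) :=
    Finset.sum_le_sum_of_subset_of_nonneg hs (fun _ _ _ => by positivity)
  have h2 : ∑ W ∈ P.parts, (W.card : ℝ) = Fintype.card V := by
    have := P.sum_card_parts
    rw [Finset.card_univ] at this
    exact_mod_cast this
  linarith

theorem nb_subset (P : Finpartition (univ : Finset V)) (ε : ℝ) (U : Finset V) :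
    nb G P ε U ⊆ P.parts := by
  intro W hW
  exact ((mem_nb G).1 hW).1

/-- the parts of a set inside the classes -/
theorem sum_filter_card_le (P : Finpartition (univ : Finset V)) {s : Finset (Finset V)}
    (hs : s ⊆ P.parts) (T : Finset V) :
    ∑ W ∈ s, (W.filter fun v => v ∈ T).card ≤ T.card := by
  classical
  rw [← Finset.card_biUnion]
  · apply Finset.card_le_card
    intro v hv
    rw [Finset.mem_biUnion] at hv
    obtain ⟨W, -, hv⟩ := hv
    exact (Finset.mem_filter.1 hv).2
  · intro W hW Z hZ hne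
    have := P.disjoint (hs hW) (hs hZ) hne
    exact Disjoint.mono (Finset.filter_subset _ _) (Finset.filter_subset _ _) this

/-- two disjoint sides of a cut -/
theorem class_bound {ε : ℝ} {W Z : Finset V} (h : Good G ε W Z) {s t : Finset V}
    (hs : s ⊆ W) (ht : t ⊆ Z) (hs' : (W.card : ℝ) * ε ≤ s.card)
    (hst : ∀ u ∈ s, ∀ v ∈ t, ¬ G.Adj u v) : (t.card : ℝ) < Z.card * ε := by
  by_contra hcon
  push Not at hcon
  have h1 := h.2.1 hs ht hs' hcon
  have h2 : G.edgeDensity s t = 0 := by
    rw [edgeDensity_def]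
    have : G.interedges s t = ∅ := by
      rw [Finset.eq_empty_iff_forall_notMem]
      intro e he
      rw [mem_interedges_iff] at he
      exact hst _ he.1 _ he.2.1 he.2.2
    rw [this]; simp
  rw [h2] at h1
  have h3 := h.2.2
  unfold dR at h3
  have h4 : (0 : ℝ) ≤ (G.edgeDensity W Z : ℝ) := dR_nonneg G W Z
  rw [Rat.cast_zero, zero_sub, abs_neg, abs_of_nonneg h4] at h1
  linarith

theorem part_claim (P : Finpartition (univ : Finset V)) {ε : ℝ} (hε : 0 < ε) (hε1 : ε ≤ 1)
    {k : ℕ} (hG : LocalConnLe G k) {U : Finset V} (hU : U ∈ P.parts) (hU2 : 2 ≤ U.card) :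
    ∃ J ⊆ nb G P ε U,
      DD G P ε U - k ≤ (∑ W ∈ J, (1 - dR G U W) * W.card) + 19 * ε * Fintype.card V ∧
      ∀ W ∈ J, DD G P ε W - k ≤ 2 * ε * Fintype.card V -
        ∑ Z ∈ nb G P ε W, (1 - dR G W Z) * Z.card := by
  classical
  set n : ℝ := (Fintype.card V : ℝ) with hn
  have hn0 : 0 ≤ n := by positivity
  -- two typical vertices
  obtain ⟨x, hx, y, hy, hxy, hfx, hfy⟩ := exists_two (U := U) hU2
    (fun x => ∑ W ∈ nb G P ε U, dv G U W x) (M := 3 * ε * n) (by positivity)
    (fun x => Finset.sum_nonneg fun W _ => dv_nonneg G U W x) (by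
      rw [Finset.sum_comm]
      calc ∑ W ∈ nb G P ε U, ∑ x ∈ U, dv G U W x
          ≤ ∑ W ∈ nb G P ε U, 3 * ε * U.card * W.card := by
            apply Finset.sum_le_sum
            intro W hW
            rw [mem_nb] at hW
            exact sum_dv_le G hε hε1 (Finset.card_pos.1 (by omega))
              (P.nonempty_of_mem_parts hW.1) hW.2.2.1
        _ = 3 * ε * U.card * ∑ W ∈ nb G P ε U, (W.card : ℝ) := by rw [Finset.mul_sum]
        _ ≤ 3 * ε * U.card * n := by
            apply mul_le_mul_of_nonneg_left (sum_card_le P (nb_subset G P ε U)) (by positivity)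
        _ = 3 * ε * n * U.card := by ring)
  obtain ⟨A, T, hxA, hyA, hxT, hyT, hAT, hcl, hTk, -⟩ := exists_cut hG hxy
  have hxW : ∀ W ∈ nb G P ε U, x ∉ W ∧ y ∉ W := by
    intro W hW
    rw [mem_nb] at hW
    have hd := P.disjoint hU hW.1 hW.2.1
    exact ⟨fun h => (Finset.disjoint_left.1 hd hx) h, fun h => (Finset.disjoint_left.1 hd hy) h⟩
  -- counts
  let a : Finset V → ℕ := fun W => (W.filter fun v => G.Adj x v ∧ v ∈ A).card
  let b : Finset V → ℕ := fun W => (W.filter fun v => G.Adj y v ∧ v ∉ A ∧ v ∉ T).card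
  let c : Finset V → ℕ := fun W => (W.filter fun v => v ∈ T ∧ G.Adj y v ∧ ¬ G.Adj x v).card
  let t : Finset V → ℕ := fun W => (W.filter fun v => v ∈ T ∧ G.Adj x v).card
  -- adjacency restrictions
  have hadjx : ∀ v, G.Adj x v → v ≠ y → v ∈ A ∨ v ∈ T := by
    intro v hv hvy
    rcases hcl x hxA v hv with h | h | h
    · exact Or.inl h
    · exact Or.inr h
    · exact absurd h.2 hvy
  have hadjy : ∀ v, G.Adj y v → v ≠ x → v ∉ A := by
    intro v hv hvx hvA
    rcases hcl v hvA y hv.symm with h | h | h
    · exact hyA h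
    · exact hyT h
    · exact hvx h.1
  have ha1 : ∀ W ∈ nb G P ε U, nW G x W ≤ a W + t W := by
    intro W hW
    rw [nW]
    refine (Finset.card_le_card ?_).trans (Finset.card_union_le _ _)
    intro v hv
    rw [Finset.mem_filter] at hv
    rw [Finset.mem_union, Finset.mem_filter, Finset.mem_filter]
    rcases hadjx v hv.2 (fun h => (hxW W hW).2 (h ▸ hv.1)) with h | h
    · exact Or.inl ⟨hv.1, hv.2, h⟩
    · exact Or.inr ⟨hv.1, h, hv.2⟩
  have htc : ∀ W ∈ nb G P ε U, t W + c W ≤ (W.filter fun v => v ∈ T).card := by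
    intro W hW
    have hdis : Disjoint (W.filter fun v => v ∈ T ∧ G.Adj x v)
        (W.filter fun v => v ∈ T ∧ G.Adj y v ∧ ¬ G.Adj x v) := by
      rw [Finset.disjoint_left]
      intro v hv hv'
      rw [Finset.mem_filter] at hv hv'
      exact hv'.2.2.2 hv.2.2
    show (W.filter fun v => v ∈ T ∧ G.Adj x v).card +
      (W.filter fun v => v ∈ T ∧ G.Adj y v ∧ ¬ G.Adj x v).card ≤ _
    rw [← Finset.card_union_of_disjoint hdis]
    apply Finset.card_le_card
    intro v hv
    rw [Finset.mem_union, Finset.mem_filter, Finset.mem_filter] at hv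
    rw [Finset.mem_filter]
    rcases hv with hv | hv
    · exact ⟨hv.1, hv.2.1⟩
    · exact ⟨hv.1, hv.2.1⟩
  have hsumtc : (∑ W ∈ nb G P ε U, ((t W : ℝ) + c W)) ≤ k := by
    have h1 : ∑ W ∈ nb G P ε U, (t W + c W) ≤ k :=
      ((Finset.sum_le_sum htc).trans (sum_filter_card_le P (nb_subset G P ε U) T)).trans hTk
    exact_mod_cast h1
  -- case (iii)
  have ha3 : ∀ W ∈ nb G P ε U, (a W : ℝ) ≤ (1 - dR G U W) * W.card + dv G U W y := by
    intro W hW
    have h1 : a W + nW G y W ≤ W.card := by
      have hdis : Disjoint (W.filter fun v => G.Adj x v ∧ v ∈ A)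
          (W.filter fun v => G.Adj y v) := by
        rw [Finset.disjoint_left]
        intro v hv hv'
        rw [Finset.mem_filter] at hv hv'
        exact hadjy v hv'.2 (fun h => (hxW W hW).1 (h ▸ hv.1)) hv.2.2
      show (W.filter fun v => G.Adj x v ∧ v ∈ A).card + (W.filter fun v => G.Adj y v).card ≤ _
      rw [← Finset.card_union_of_disjoint hdis]
      exact Finset.card_le_card (Finset.union_subset (Finset.filter_subset _ _)
        (Finset.filter_subset _ _))
    have h2 : (a W : ℝ) + nW G y W ≤ W.card := by exact_mod_cast h1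
    have h3 := neg_abs_le ((nW G y W : ℝ) - dR G U W * W.card)
    unfold dv
    nlinarith
  -- case (ii)
  have ha2 : ∀ W ∈ nb G P ε U, (a W : ℝ) + nW G y W ≤ nW G x W + c W + b W := by
    intro W hW
    have h1 : a W + (W.filter fun v => G.Adj x v ∧ G.Adj y v).card ≤ nW G x W := by
      have hdis : Disjoint (W.filter fun v => G.Adj x v ∧ v ∈ A)
          (W.filter fun v => G.Adj x v ∧ G.Adj y v) := by
        rw [Finset.disjoint_left]
        intro v hv hv'
        rw [Finset.mem_filter] at hv hv'
        exact hadjy v hv'.2.2 (fun h => (hxW W hW).1 (h ▸ hv.1)) hv.2.2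
      show (W.filter fun v => G.Adj x v ∧ v ∈ A).card + _ ≤ (W.filter fun v => G.Adj x v).card
      rw [← Finset.card_union_of_disjoint hdis]
      apply Finset.card_le_card
      intro v hv
      rw [Finset.mem_union, Finset.mem_filter, Finset.mem_filter] at hv
      rw [Finset.mem_filter]
      rcases hv with hv | hv
      · exact ⟨hv.1, hv.2.1⟩
      · exact ⟨hv.1, hv.2.1⟩
    have h2 : nW G y W ≤ (W.filter fun v => G.Adj x v ∧ G.Adj y v).card + (c W + b W) := by
      show (W.filter fun v => G.Adj y v).card ≤ _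
      refine (Finset.card_le_card (t := (W.filter fun v => G.Adj x v ∧ G.Adj y v) ∪
        ((W.filter fun v => v ∈ T ∧ G.Adj y v ∧ ¬ G.Adj x v) ∪
          (W.filter fun v => G.Adj y v ∧ v ∉ A ∧ v ∉ T))) ?_).trans
        ((Finset.card_union_le _ _).trans (Nat.add_le_add_left (Finset.card_union_le _ _) _))
      intro v hv
      rw [Finset.mem_filter] at hv
      simp only [Finset.mem_union, Finset.mem_filter]
      have hvA := hadjy v hv.2 (fun h => (hxW W hW).1 (h ▸ hv.1))
      by_cases hvT : v ∈ T
      · by_cases hvx : G.Adj x v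
        · exact Or.inl ⟨hv.1, hvx, hv.2⟩
        · exact Or.inr (Or.inl ⟨hv.1, hvT, hv.2, hvx⟩)
      · exact Or.inr (Or.inr ⟨hv.1, hv.2, hvA, hvT⟩)
    have h3 : a W + nW G y W ≤ nW G x W + c W + b W := by omega
    exact_mod_cast h3
  -- the set J
  let J := (nb G P ε U).filter fun W => (W.card : ℝ) * ε ≤ a W ∧ (W.card : ℝ) * ε ≤ b W
  refine ⟨J, Finset.filter_subset _ _, ?_, ?_⟩
  · -- claim 1
    have key : ∀ W ∈ nb G P ε U, dR G U W * W.card ≤ ((t W : ℝ) + c W) +
        (if W ∈ J then (1 - dR G U W) * W.card else 0) + ε * W.card +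
        2 * dv G U W x + dv G U W y := by
      intro W hW
      have h1 : (nW G x W : ℝ) ≤ a W + t W := by exact_mod_cast ha1 W hW
      have h2 := ha2 W hW
      have h3 := ha3 W hW
      have h4 : (0 : ℝ) ≤ c W := by positivity
      have h5 : dR G U W * W.card ≤ nW G x W + dv G U W x := by
        unfold dv
        have := neg_abs_le ((nW G x W : ℝ) - dR G U W * W.card)
        linarith
      have h6 : (nW G x W : ℝ) ≤ dR G U W * W.card + dv G U W x := by
        unfold dv
        have := le_abs_self ((nW G x W : ℝ) - dR G U W * W.card)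
        linarith
      have h7 : dR G U W * W.card ≤ nW G y W + dv G U W y := by
        unfold dv
        have := neg_abs_le ((nW G y W : ℝ) - dR G U W * W.card)
        linarith
      have h8 := dv_nonneg G U W x
      have h9 := dv_nonneg G U W y
      have h10 : 0 ≤ ε * (W.card : ℝ) := by positivity
      by_cases hJ : W ∈ J
      · rw [if_pos hJ]
        linarith
      · rw [if_neg hJ]
        have h11 : ¬ ((W.card : ℝ) * ε ≤ a W ∧ (W.card : ℝ) * ε ≤ b W) := fun h =>
          hJ (Finset.mem_filter.2 ⟨hW, h⟩)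
        rw [not_and_or, not_le, not_le] at h11
        rcases h11 with h11 | h11
        · linarith [mul_comm ε (W.card : ℝ)]
        · linarith [mul_comm ε (W.card : ℝ)]
    have hsum := Finset.sum_le_sum key
    have e1 : ∑ W ∈ nb G P ε U, (if W ∈ J then (1 - dR G U W) * W.card else 0) =
        ∑ W ∈ J, (1 - dR G U W) * W.card := by
      rw [Finset.sum_ite_mem, Finset.inter_eq_right.2 (Finset.filter_subset _ _)]
    simp only [Finset.sum_add_distrib] at hsum hsumtc
    rw [e1, ← Finset.mul_sum, ← Finset.mul_sum] at hsum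
    have h12 := sum_card_le P (nb_subset G P ε U)
    have h13 : ε * ∑ W ∈ nb G P ε U, (W.card : ℝ) ≤ ε * n :=
      mul_le_mul_of_nonneg_left h12 hε.le
    unfold DD
    linarith
  · -- claim 2
    intro W hWJ
    have hW := (Finset.mem_filter.1 hWJ).1
    have hWa := (Finset.mem_filter.1 hWJ).2.1
    have hWb := (Finset.mem_filter.1 hWJ).2.2
    have hZ : ∀ Z ∈ nb G P ε W, (Z.card : ℝ) ≤ (Z.filter fun v => v ∈ T).card +
        2 * ε * Z.card := by
      intro Z hZ
      rw [mem_nb] at hZ
      have h1 : ((Z.filter fun v => v ∈ A).card : ℝ) < Z.card * ε := by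
        apply class_bound G hZ.2 (s := W.filter fun v => G.Adj y v ∧ v ∉ A ∧ v ∉ T)
          (Finset.filter_subset _ _) (Finset.filter_subset _ _) hWb
        intro u hu v hv huv
        rw [Finset.mem_filter] at hu hv
        rcases hcl v hv.2 u huv.symm with h | h | h
        · exact hu.2.2.1 h
        · exact hu.2.2.2 h
        · exact (hxW W hW).2 (h.2 ▸ hu.1)
      have h2 : ((Z.filter fun v => v ∉ A ∧ v ∉ T).card : ℝ) < Z.card * ε := by
        apply class_bound G hZ.2 (s := W.filter fun v => G.Adj x v ∧ v ∈ A)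
          (Finset.filter_subset _ _) (Finset.filter_subset _ _) hWa
        intro u hu v hv huv
        rw [Finset.mem_filter] at hu hv
        rcases hcl u hu.2.2 v huv with h | h | h
        · exact hv.2.1 h
        · exact hv.2.2 h
        · exact (hxW W hW).1 (h.1 ▸ hu.1)
      have h3 : Z.card ≤ (Z.filter fun v => v ∈ T).card +
          ((Z.filter fun v => v ∈ A).card + (Z.filter fun v => v ∉ A ∧ v ∉ T).card) := by
        refine (Finset.card_le_card (t := (Z.filter fun v => v ∈ T) ∪
          ((Z.filter fun v => v ∈ A) ∪ (Z.filter fun v => v ∉ A ∧ v ∉ T))) ?_).trans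
          ((Finset.card_union_le _ _).trans (Nat.add_le_add_left (Finset.card_union_le _ _) _))
        intro v hv
        simp only [Finset.mem_union, Finset.mem_filter]
        by_cases h1 : v ∈ T
        · exact Or.inl ⟨hv, h1⟩
        · by_cases h2 : v ∈ A
          · exact Or.inr (Or.inl ⟨hv, h2⟩)
          · exact Or.inr (Or.inr ⟨hv, h2, h1⟩)
      have h4 : (Z.card : ℝ) ≤ (Z.filter fun v => v ∈ T).card +
          ((Z.filter fun v => v ∈ A).card + (Z.filter fun v => v ∉ A ∧ v ∉ T).card) := by
        exact_mod_cast h3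
      linarith
    have hsum := Finset.sum_le_sum hZ
    rw [Finset.sum_add_distrib, ← Finset.mul_sum] at hsum
    have h5 : (∑ Z ∈ nb G P ε W, ((Z.filter fun v => v ∈ T).card : ℝ)) ≤ k := by
      have := (sum_filter_card_le P (nb_subset G P ε W) T).trans hTk
      exact_mod_cast this
    have h6 := sum_card_le P (nb_subset G P ε W)
    have h7 : 2 * ε * ∑ Z ∈ nb G P ε W, (Z.card : ℝ) ≤ 2 * ε * n :=
      mul_le_mul_of_nonneg_left h6 (by positivity)
    have h8 : DD G P ε W = ∑ Z ∈ nb G P ε W, (Z.card : ℝ) -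
        ∑ Z ∈ nb G P ε W, (1 - dR G W Z) * Z.card := by
      unfold DD
      rw [← Finset.sum_sub_distrib]
      apply Finset.sum_congr rfl
      intro Z _
      ring
    rw [h8]
    linarith

end H34.LK
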