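import Mathlib
import Pool.Agent.H34.LK.Dense2

/-!
Dense regime, part 3: a graph on `n ≤ C k` vertices with local connectivity at most `k` has at
most `k n / 2 + ε k ^ 2` edges.
-/

namespace H34.LK

set_option linter.unusedSectionVars false

open SimpleGraph Finset Pool.Agent.LocalConn

variable {V : Type*} [Fintype V] [DecidableEq V] (G : SimpleGraph V) [DecidableRel G.Adj]

theorem sum_DD_le (P : Finpartition (univ : Finset V)) {ε : ℝ} (hε : 0 < ε) (hε1 : ε ≤ 1)
    {k : ℕ} (hG : LocalConnLe G k) (hU2 : ∀ U ∈ P.parts, 2 ≤ U.card) :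
    ∑ U ∈ P.parts, (U.card : ℝ) * (DD G P ε U - k) ≤ 21 * ε * (Fintype.card V) ^ 2 := by
  classical
  set n : ℝ := (Fintype.card V : ℝ) with hn
  have hn0 : 0 ≤ n := by positivity
  have h : ∀ U, U ∈ P.parts → ∃ J ⊆ nb G P ε U,
      DD G P ε U - k ≤ (∑ W ∈ J, (1 - dR G U W) * W.card) + 19 * ε * Fintype.card V ∧
      ∀ W ∈ J, DD G P ε W - k ≤ 2 * ε * Fintype.card V -
        ∑ Z ∈ nb G P ε W, (1 - dR G W Z) * Z.card :=
    fun U hU => part_claim G P hε hε1 hG hU (hU2 U hU)
  choose! J hJ1 hJ2 hJ3 using h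
  let S := P.parts.filter fun W => ∃ U ∈ P.parts, W ∈ J U
  have hw : ∀ U W : Finset V, 0 ≤ (1 - dR G U W) := fun U W => by
    have := dR_le_one G U W; linarith
  -- bound for the classes outside `S`
  have h1 : ∀ U ∈ P.parts, U ∉ S → (U.card : ℝ) * (DD G P ε U - k) ≤
      (∑ W ∈ S.filter (fun W => U ∈ nb G P ε W),
        (U.card : ℝ) * ((1 - dR G U W) * W.card)) + 19 * ε * n * U.card := by
    intro U hU _
    have h2 := hJ2 U hU
    have h3 : ∑ W ∈ J U, (1 - dR G U W) * (W.card : ℝ) ≤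
        ∑ W ∈ S.filter (fun W => U ∈ nb G P ε W), (1 - dR G U W) * (W.card : ℝ) := by
      apply Finset.sum_le_sum_of_subset_of_nonneg
      · intro W hW
        have h4 := (mem_nb G).1 (hJ1 U hU hW)
        rw [Finset.mem_filter, Finset.mem_filter]
        exact ⟨⟨h4.1, U, hU, hW⟩, (mem_nb G).2 ⟨hU, h4.2.symm⟩⟩
      · intro W _ _
        exact mul_nonneg (hw U W) (by positivity)
    have h5 : (U.card : ℝ) * (DD G P ε U - k) ≤ U.card *
        ((∑ W ∈ S.filter (fun W => U ∈ nb G P ε W), (1 - dR G U W) * (W.card : ℝ)) +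
          19 * ε * n) := by
      apply mul_le_mul_of_nonneg_left _ (by positivity)
      linarith
    rw [mul_add, Finset.mul_sum] at h5
    linarith
  have h2 : ∀ W ∈ S, (W.card : ℝ) * (DD G P ε W - k) ≤
      2 * ε * n * W.card - ∑ U ∈ nb G P ε W, (U.card : ℝ) * ((1 - dR G U W) * W.card) := by
    intro W hW
    obtain ⟨hWP, U, hU, hWU⟩ := (Finset.mem_filter.1 hW)
    have h3 := hJ3 U hU W hWU
    have h5 : (W.card : ℝ) * (DD G P ε W - k) ≤ W.card *
        (2 * ε * n - ∑ Z ∈ nb G P ε W, (1 - dR G W Z) * Z.card) := by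
      apply mul_le_mul_of_nonneg_left _ (by positivity)
      exact h3
    rw [mul_sub (W.card : ℝ) (2 * ε * n) _, Finset.mul_sum] at h5
    have h6 : ∑ Z ∈ nb G P ε W, (W.card : ℝ) * ((1 - dR G W Z) * Z.card) =
        ∑ U ∈ nb G P ε W, (U.card : ℝ) * ((1 - dR G U W) * W.card) := by
      apply Finset.sum_congr rfl
      intro Z _
      rw [dR_comm G W Z]; ring
    rw [h6] at h5
    linarith
  -- splitting
  have hSP : S ⊆ P.parts := Finset.filter_subset _ _
  have hsplit : ∑ U ∈ P.parts, (U.card : ℝ) * (DD G P ε U - k) =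
      ∑ U ∈ P.parts \ S, (U.card : ℝ) * (DD G P ε U - k) +
        ∑ U ∈ S, (U.card : ℝ) * (DD G P ε U - k) := (Finset.sum_sdiff hSP).symm
  have h3 : ∑ U ∈ P.parts \ S, (U.card : ℝ) * (DD G P ε U - k) ≤
      ∑ U ∈ P.parts \ S, ((∑ W ∈ S.filter (fun W => U ∈ nb G P ε W),
        (U.card : ℝ) * ((1 - dR G U W) * W.card)) + 19 * ε * n * U.card) := by
    apply Finset.sum_le_sum
    intro U hU
    rw [Finset.mem_sdiff] at hU
    exact h1 U hU.1 hU.2
  have h4 := Finset.sum_le_sum h2
  rw [Finset.sum_sub_distrib] at h4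
  rw [Finset.sum_add_distrib] at h3
  have h5 : ∑ U ∈ P.parts \ S, (∑ W ∈ S.filter (fun W => U ∈ nb G P ε W),
        (U.card : ℝ) * ((1 - dR G U W) * W.card)) ≤
      ∑ U ∈ P.parts, (∑ W ∈ S.filter (fun W => U ∈ nb G P ε W),
        (U.card : ℝ) * ((1 - dR G U W) * W.card)) := by
    apply Finset.sum_le_sum_of_subset_of_nonneg Finset.sdiff_subset
    intro U _ _
    apply Finset.sum_nonneg
    intro W _
    exact mul_nonneg (by positivity) (mul_nonneg (hw U W) (by positivity))
  have h6 : ∑ U ∈ P.parts, (∑ W ∈ S.filter (fun W => U ∈ nb G P ε W),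
        (U.card : ℝ) * ((1 - dR G U W) * W.card)) =
      ∑ W ∈ S, ∑ U ∈ nb G P ε W, (U.card : ℝ) * ((1 - dR G U W) * W.card) := by
    apply Finset.sum_comm'
    intro U W
    rw [Finset.mem_filter]
    constructor
    · rintro ⟨_, h7, h8⟩
      exact ⟨h8, h7⟩
    · rintro ⟨h8, h7⟩
      exact ⟨nb_subset G P ε W h8, h7, h8⟩
  have h7 : ∑ U ∈ P.parts \ S, 19 * ε * n * (U.card : ℝ) ≤ 19 * ε * n * n := by
    rw [← Finset.mul_sum]
    exact mul_le_mul_of_nonneg_left (sum_card_le P Finset.sdiff_subset) (by positivity)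
  have h8 : ∑ W ∈ S, 2 * ε * n * (W.card : ℝ) ≤ 2 * ε * n * n := by
    rw [← Finset.mul_sum]
    exact mul_le_mul_of_nonneg_left (sum_card_le P hSP) (by positivity)
  rw [hsplit]
  have : (21 : ℝ) * ε * n ^ 2 = 19 * ε * n * n + 2 * ε * n * n := by ring
  rw [this]
  linarith

theorem two_mul_edges_le (P : Finpartition (univ : Finset V)) {ε : ℝ} (hε : 0 < ε)
    (hP : P.IsEquipartition) (hPu : P.IsUniform G ε) (hPc : 4 / ε ≤ P.parts.card)
    (hV : (univ : Finset V).Nonempty) :
    2 * (G.edgeFinset.card : ℝ) ≤ (∑ U ∈ P.parts, (U.card : ℝ) * DD G P ε U) +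
      9 * ε * (Fintype.card V) ^ 2 := by
  classical
  have hn : ((univ : Finset V).card : ℝ) = Fintype.card V := by rw [Finset.card_univ]
  have b1 : (((P.nonUniforms G ε).biUnion fun UV => UV.1 ×ˢ UV.2).card : ℝ) ≤
      4 * ε * (Fintype.card V) ^ 2 := by
    rw [← hn]; exact (Finpartition.IsEquipartition.sum_nonUniforms_lt hV hε hP hPu).le
  have b2 : ((P.parts.biUnion offDiag).card : ℝ) ≤ ε / 2 * (Fintype.card V) ^ 2 := by
    rw [← hn]; exact Finpartition.IsEquipartition.card_biUnion_offDiag_le hε hP hPc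
  have b3 : (((P.sparsePairs G ε).biUnion fun UV => G.interedges UV.1 UV.2).card : ℝ) ≤
      4 * ε * (Fintype.card V) ^ 2 := by
    rw [← hn]; exact Finpartition.IsEquipartition.card_interedges_sparsePairs_le hP hε.le
  -- dart count
  have hE : 2 * G.edgeFinset.card = (univ.filter fun e : V × V => G.Adj e.1 e.2).card := by
    rw [← SimpleGraph.sum_degrees_eq_twice_card_edges, Finset.card_filter,
      ← Finset.univ_product_univ, Finset.sum_product]
    apply Finset.sum_congr rfl
    intro x _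
    rw [← SimpleGraph.card_neighborFinset_eq_degree, ← Finset.card_filter]
    congr 1
    ext y
    simp
  let Gd := P.parts.biUnion fun U => (nb G P ε U).biUnion fun W => G.interedges U W
  have hcov : (univ.filter fun e : V × V => G.Adj e.1 e.2) ⊆
      Gd ∪ (((P.nonUniforms G ε).biUnion fun UV => UV.1 ×ˢ UV.2) ∪ (P.parts.biUnion offDiag ∪
        ((P.sparsePairs G ε).biUnion fun UV => G.interedges UV.1 UV.2))) := by
    rintro ⟨x, y⟩ hxy
    rw [Finset.mem_filter] at hxy
    have hadj : G.Adj x y := hxy.2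
    obtain ⟨U, hU, hxU⟩ := P.exists_mem (Finset.mem_univ x)
    obtain ⟨W, hW, hyW⟩ := P.exists_mem (Finset.mem_univ y)
    simp only [Finset.mem_union, Gd, Finset.mem_biUnion]
    by_cases hUW : U = W
    · subst hUW
      right; right; left
      exact ⟨U, hU, by rw [Finset.mem_offDiag]; exact ⟨hxU, hyW, hadj.ne⟩⟩
    by_cases hun : G.IsUniform ε U W
    · by_cases hsp : ε ≤ dR G U W
      · left
        exact ⟨U, hU, W, (mem_nb G).2 ⟨hW, hUW, hun, hsp⟩, by
          rw [mk_mem_interedges_iff]; exact ⟨hxU, hyW, hadj⟩⟩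
      · right; right; right
        refine ⟨(U, W), ?_, by rw [mk_mem_interedges_iff]; exact ⟨hxU, hyW, hadj⟩⟩
        rw [Finpartition.mk_mem_sparsePairs]
        exact ⟨hU, hW, hUW, not_le.1 hsp⟩
    · right; left
      refine ⟨(U, W), ?_, Finset.mem_product.2 ⟨hxU, hyW⟩⟩
      rw [Finpartition.mk_mem_nonUniforms]
      exact ⟨hU, hW, hUW, hun⟩
  have hc := Finset.card_le_card hcov
  have hc2 := hc.trans ((Finset.card_union_le _ _).trans (Nat.add_le_add_left
    ((Finset.card_union_le _ _).trans (Nat.add_le_add_left (Finset.card_union_le _ _) _)) _))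
  rw [← hE] at hc2
  have hc3 : 2 * (G.edgeFinset.card : ℝ) ≤ Gd.card +
      ((((P.nonUniforms G ε).biUnion fun UV => UV.1 ×ˢ UV.2).card : ℝ) +
      (((P.parts.biUnion offDiag).card : ℝ) +
        (((P.sparsePairs G ε).biUnion fun UV => G.interedges UV.1 UV.2).card : ℝ))) := by
    exact_mod_cast hc2
  have hGd : (Gd.card : ℝ) ≤ ∑ U ∈ P.parts, (U.card : ℝ) * DD G P ε U := by
    have h1 : Gd.card ≤ ∑ U ∈ P.parts, ∑ W ∈ nb G P ε U, (G.interedges U W).card :=
      Finset.card_biUnion_le.trans (Finset.sum_le_sum fun U _ => Finset.card_biUnion_le)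
    have h2 : (Gd.card : ℝ) ≤ ∑ U ∈ P.parts, ∑ W ∈ nb G P ε U, ((G.interedges U W).card : ℝ) := by
      exact_mod_cast h1
    refine h2.trans (le_of_eq ?_)
    apply Finset.sum_congr rfl
    intro U _
    unfold DD
    rw [Finset.mul_sum]
    apply Finset.sum_congr rfl
    intro W _
    have h3 : ((G.interedges U W).card : ℝ) = ∑ x ∈ U, (nW G x W : ℝ) := by
      rw [card_interedges_eq]; push_cast; rfl
    rw [h3, sum_nW_eq]; ring
  have hpos : 0 ≤ ε * (Fintype.card V : ℝ) ^ 2 := by positivity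
  nlinarith

/-- **Dense regime**: a graph on at most `C k` vertices with local connectivity at most `k` has
at most `k n / 2 + ε k ^ 2` edges, if `k` is large. -/
theorem dense_regime (C ε : ℝ) (hε : 0 < ε) : ∃ k0 : ℕ, ∀ k : ℕ, k0 ≤ k →
    ∀ (V : Type) [Fintype V] [DecidableEq V] (G : SimpleGraph V) [DecidableRel G.Adj],
      LocalConnLe G k → (Fintype.card V : ℝ) ≤ C * k →
      (G.edgeFinset.card : ℝ) ≤ k * Fintype.card V / 2 + ε * k ^ 2 := by
  classical
  set D : ℝ := max C 1 with hD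
  have hD1 : 1 ≤ D := le_max_right _ _
  set η : ℝ := min 1 (2 * ε / (30 * D ^ 2)) with hη
  have hη0 : 0 < η := by
    rw [hη]; apply lt_min one_pos; positivity
  have hη1 : η ≤ 1 := min_le_left _ _
  have hη2 : 30 * η * D ^ 2 ≤ 2 * ε := by
    have : η ≤ 2 * ε / (30 * D ^ 2) := min_le_right _ _
    rw [le_div_iff₀ (by positivity)] at this
    linarith
  set l : ℕ := ⌈4 / η⌉₊ with hl
  set M : ℕ := SzemerediRegularity.bound η l with hM
  refine ⟨2 * M + l + 1, fun k hk V _ _ G _ hG hcard => ?_⟩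
  set n : ℝ := (Fintype.card V : ℝ) with hn
  have hk0 : (1 : ℝ) ≤ k := by exact_mod_cast (by omega : 1 ≤ k)
  have hkD : (n : ℝ) ≤ D * k := hcard.trans (mul_le_mul_of_nonneg_right (le_max_left _ _)
    (by linarith))
  rcases lt_or_ge (Fintype.card V) k with hnk | hnk
  · -- few vertices
    have h1 : 2 * G.edgeFinset.card ≤ Fintype.card V * k := by
      rw [← SimpleGraph.sum_degrees_eq_twice_card_edges]
      calc ∑ v : V, G.degree v ≤ ∑ v : V, k := by
            apply Finset.sum_le_sum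
            intro v _
            have := G.degree_lt_card_verts v
            omega
        _ = Fintype.card V * k := by simp [Finset.card_univ]
    have h2 : 2 * (G.edgeFinset.card : ℝ) ≤ n * k := by
      rw [hn]; exact_mod_cast h1
    have h3 : 0 ≤ ε * (k : ℝ) ^ 2 := by positivity
    linarith
  · have hlc : l ≤ Fintype.card V := by omega
    obtain ⟨P, hP, hPl, hPM, hPu⟩ := szemeredi_regularity G hη0 hlc
    have hVne : (univ : Finset V).Nonempty := by
      rw [← Finset.card_pos, Finset.card_univ]; omega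
    have hparts : 0 < P.parts.card := (P.parts_nonempty hVne.ne_empty).card_pos
    have hU2 : ∀ U ∈ P.parts, 2 ≤ U.card := by
      intro U hU
      refine le_trans ?_ (hP.average_le_card_part hU)
      rw [Nat.le_div_iff_mul_le hparts, Finset.card_univ]
      have : 2 * P.parts.card ≤ 2 * M := Nat.mul_le_mul_left 2 hPM
      omega
    have hPc : 4 / η ≤ P.parts.card := by
      have h1 : 4 / η ≤ (l : ℝ) := Nat.le_ceil _
      have h2 : (l : ℝ) ≤ P.parts.card := by exact_mod_cast hPl
      linarith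
    have h1 := sum_DD_le G P hη0 hη1 hG hU2
    have h2 := two_mul_edges_le G P hη0 hP hPu hPc hVne
    have h3 : ∑ U ∈ P.parts, (U.card : ℝ) * (DD G P η U - k) =
        ∑ U ∈ P.parts, (U.card : ℝ) * DD G P η U - n * k := by
      have h4 : ∑ U ∈ P.parts, (U.card : ℝ) = n := by
        have := P.sum_card_parts
        rw [Finset.card_univ] at this
        rw [hn]
        exact_mod_cast this
      rw [← h4, Finset.sum_mul, ← Finset.sum_sub_distrib]
      apply Finset.sum_congr rfl
      intro U _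
      ring
    rw [h3] at h1
    have h5 : n ^ 2 ≤ D ^ 2 * k ^ 2 := by
      rw [← mul_pow]
      exact pow_le_pow_left₀ (by positivity) hkD 2
    have h6 : 30 * η * n ^ 2 ≤ 2 * ε * k ^ 2 := by
      calc 30 * η * n ^ 2 ≤ 30 * η * (D ^ 2 * k ^ 2) :=
            mul_le_mul_of_nonneg_left h5 (by positivity)
        _ = (30 * η * D ^ 2) * k ^ 2 := by ring
        _ ≤ 2 * ε * k ^ 2 := mul_le_mul_of_nonneg_right hη2 (by positivity)
    linarith

end H34.LK
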