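import Mathlib
import Pool.Agent.H34.LK.Dense3

/-!
Induced subgraphs: edge counts, cuts, and the dense regime for induced subgraphs.
-/

namespace H34.LK

set_option linter.unusedSectionVars false

open SimpleGraph Finset Pool.Agent.LocalConn

/-- Local connectivity is monotone under injective homomorphisms. -/
theorem localConnLe_of_hom {V W : Type*} {G : SimpleGraph V} {G' : SimpleGraph W} (f : G' →g G)
    (hf : Function.Injective f) {k : ℕ} (h : LocalConnLe G k) : LocalConnLe G' k := by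
  intro x y hxy m hp
  obtain ⟨p, hinj, hd⟩ := hp
  refine h (f x) (f y) (fun h => hxy (hf h)) m ⟨fun i => (p i).map f hf, ?_, ?_⟩
  · intro i j hij
    exact hinj (Path.map_injective hf x y hij)
  · intro i j hij v hi hj
    change v ∈ ((p i).1.map f).support at hi
    change v ∈ ((p j).1.map f).support at hj
    rw [Walk.support_map, List.mem_map] at hi hj
    obtain ⟨a, ha, rfl⟩ := hi
    obtain ⟨b, hb, hab⟩ := hj
    have := hf hab
    subst this
    rcases hd i j hij b ha hb with h | h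
    · exact Or.inl (by rw [h])
    · exact Or.inr (by rw [h])

variable {V : Type*} [Fintype V] [DecidableEq V] (G : SimpleGraph V) [DecidableRel G.Adj]

/-- twice the number of edges inside `s` -/
def e2 (s : Finset V) : ℕ := ∑ v ∈ s, nW G v s

theorem e2_univ : e2 G univ = 2 * G.edgeFinset.card := by
  rw [← SimpleGraph.sum_degrees_eq_twice_card_edges, e2]
  apply Finset.sum_congr rfl
  intro x _
  rw [← SimpleGraph.card_neighborFinset_eq_degree, nW]
  congr 1
  ext y
  simp

theorem e2_eq_card (s : Finset V) :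
    e2 G s = ((s ×ˢ s).filter fun e : V × V => G.Adj e.1 e.2).card := by
  rw [Finset.card_filter, Finset.sum_product, e2]
  apply Finset.sum_congr rfl
  intro x _
  rw [nW, Finset.card_filter]

/-- Dense regime for induced subgraphs. -/
theorem dense_finset (C ε : ℝ) (hε : 0 < ε) : ∃ k0 : ℕ, ∀ k : ℕ, k0 ≤ k →
    ∀ (V : Type) [Fintype V] [DecidableEq V] (G : SimpleGraph V) [DecidableRel G.Adj],
      LocalConnLe G k → ∀ s : Finset V, (s.card : ℝ) ≤ C * k →
      (e2 G s : ℝ) ≤ k * s.card + ε * k ^ 2 := by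
  obtain ⟨k0, hk0⟩ := dense_regime C (ε / 2) (by positivity)
  refine ⟨k0, fun k hk V _ _ G _ hG s hs => ?_⟩
  let G' : SimpleGraph {x // x ∈ s} := G.comap Subtype.val
  have hG' : LocalConnLe G' k :=
    localConnLe_of_hom (G := G) (G' := G') ⟨Subtype.val, fun {a b} h => h⟩
      Subtype.val_injective hG
  have h1 := hk0 k hk {x // x ∈ s} G' hG' (by simpa using hs)
  have h2 : 2 * G'.edgeFinset.card = e2 G s := by
    rw [← e2_univ, e2, e2, ← Finset.sum_coe_sort s, Finset.univ_eq_attach]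
    apply Finset.sum_congr rfl
    intro x _
    rw [nW, nW, ← Finset.card_map (Function.Embedding.subtype _)]
    congr 1
    ext y
    simp only [Finset.mem_map, Finset.mem_filter, Finset.mem_attach, true_and,
      Function.Embedding.coe_subtype, G', SimpleGraph.comap_adj, Subtype.exists,
      exists_and_right, exists_eq_right]
    constructor
    · rintro ⟨h3, h4⟩
      exact ⟨h3, h4⟩
    · rintro ⟨h3, h4⟩
      exact ⟨h3, h4⟩
  have h3 : (2 : ℝ) * G'.edgeFinset.card = e2 G s := by exact_mod_cast h2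
  rw [← h3]
  have h4 : (Fintype.card {x // x ∈ s} : ℝ) = s.card := by simp
  rw [h4] at h1
  linarith

/-- Menger inside an induced subgraph. -/
theorem exists_cut_in {k : ℕ} (hG : LocalConnLe G k) {s : Finset V} {x y : V} (hx : x ∈ s)
    (hy : y ∈ s) (hxy : x ≠ y) :
    ∃ A T : Finset V, A ⊆ s ∧ T ⊆ s ∧ x ∈ A ∧ y ∉ A ∧ x ∉ T ∧ y ∉ T ∧ Disjoint A T ∧
      (∀ u ∈ A, ∀ v ∈ s, G.Adj u v → v ∈ A ∨ v ∈ T ∨ (u = x ∧ v = y)) ∧
      T.card ≤ k ∧ (G.Adj x y → T.card + 1 ≤ k) := by
  classical
  let G' : SimpleGraph V :=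
    { Adj := fun u v => G.Adj u v ∧ u ∈ s ∧ v ∈ s
      symm := ⟨fun u v h => ⟨h.1.symm, h.2.2, h.2.1⟩⟩
      loopless := ⟨fun u h => h.1.ne rfl⟩ }
  have hG' : LocalConnLe G' k :=
    localConnLe_of_hom (G := G) (G' := G') ⟨id, fun {a b} h => h.1⟩ Function.injective_id hG
  obtain ⟨A, T, hxA, hyA, hxT, hyT, hAT, hcl, hTk, hTk'⟩ := exists_cut hG' hxy
  refine ⟨A ∩ s, T ∩ s, Finset.inter_subset_right, Finset.inter_subset_right,
    Finset.mem_inter.2 ⟨hxA, hx⟩, fun h => hyA (Finset.mem_inter.1 h).1,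
    fun h => hxT (Finset.mem_inter.1 h).1, fun h => hyT (Finset.mem_inter.1 h).1,
    hAT.mono Finset.inter_subset_left Finset.inter_subset_left, ?_,
    (Finset.card_le_card Finset.inter_subset_left).trans hTk, ?_⟩
  · intro u hu v hv huv
    rw [Finset.mem_inter] at hu
    rcases hcl u hu.1 v ⟨huv, hu.2, hv⟩ with h | h | h
    · exact Or.inl (Finset.mem_inter.2 ⟨h, hv⟩)
    · exact Or.inr (Or.inl (Finset.mem_inter.2 ⟨h, hv⟩))
    · exact Or.inr (Or.inr h)
  · intro hadj
    have h1 := hTk' ⟨hadj, hx, hy⟩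
    have h2 : (T ∩ s).card ≤ T.card := Finset.card_le_card Finset.inter_subset_left
    omega

/-- splitting the edges along a cut -/
theorem e2_split {s A T : Finset V} {x y : V}
    (hcl : ∀ u ∈ A, ∀ v ∈ s, G.Adj u v → v ∈ A ∨ v ∈ T ∨ (u = x ∧ v = y)) :
    e2 G s ≤ e2 G (A ∪ T) + e2 G (s \ A) + (if G.Adj x y then 2 else 0) := by
  classical
  rw [e2_eq_card, e2_eq_card, e2_eq_card]
  have hcov : ((s ×ˢ s).filter fun e : V × V => G.Adj e.1 e.2) ⊆
      ((((A ∪ T) ×ˢ (A ∪ T)).filter fun e : V × V => G.Adj e.1 e.2) ∪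
      (((s \ A) ×ˢ (s \ A)).filter fun e : V × V => G.Adj e.1 e.2)) ∪
      (if G.Adj x y then {(x, y), (y, x)} else ∅) := by
    rintro ⟨u, v⟩ huv
    simp only [Finset.mem_filter, Finset.mem_product] at huv
    obtain ⟨⟨hu, hv⟩, hadj⟩ := huv
    rw [Finset.mem_union, Finset.mem_union]
    simp only [Finset.mem_filter, Finset.mem_product, Finset.mem_union, Finset.mem_sdiff]
    by_cases huA : u ∈ A
    · rcases hcl u huA v hv hadj with h | h | h
      · left; left; exact ⟨⟨Or.inl huA, Or.inl h⟩, hadj⟩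
      · left; left; exact ⟨⟨Or.inl huA, Or.inr h⟩, hadj⟩
      · right
        rw [h.1, h.2] at hadj ⊢
        rw [if_pos hadj]; simp
    · by_cases hvA : v ∈ A
      · rcases hcl v hvA u hu hadj.symm with h | h | h
        · exact absurd h huA
        · left; left; exact ⟨⟨Or.inr h, Or.inl hvA⟩, hadj⟩
        · right
          rw [h.1, h.2] at hadj ⊢
          rw [if_pos hadj.symm]; simp
      · left; right; exact ⟨⟨⟨hu, huA⟩, hv, hvA⟩, hadj⟩
  refine (Finset.card_le_card hcov).trans ((Finset.card_union_le _ _).trans ?_)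
  refine Nat.add_le_add (Finset.card_union_le _ _) ?_
  split_ifs
  · exact Finset.card_le_two
  · simp

end H34.LK
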