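import Mathlib
import Pool.Agent.H34.LK.Red1

/-!
Small fragments in a minimal counterexample and the discharging argument.
-/

namespace H34.LK

set_option linter.unusedSectionVars false

open SimpleGraph Finset Pool.Agent.LocalConn

variable {V : Type*} [Fintype V] [DecidableEq V] (G : SimpleGraph V) [DecidableRel G.Adj]

/-- `v` lies in a small fragment of `G[s]`. -/
def Small (s : Finset V) (k : ℕ) (ν : ℝ) (v : V) : Prop :=
  ∃ X S : Finset V, X ⊆ s ∧ v ∈ X ∧ S.card ≤ k ∧ ((X ∪ S).card : ℝ) ≤ ν * k + 1 ∧
    ∀ u ∈ X, ∀ w ∈ s, G.Adj u w → w ∈ X ∪ S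

/-- In a minimal counterexample, all vertices but one lie in small fragments. -/
theorem small_or_small {k : ℕ} (hG : LocalConnLe G k) {β ν : ℝ} (hβ : 1 ≤ β * k) {s : Finset V}
    (IH : ∀ t : Finset V, t.card < s.card → ν * k ≤ t.card →
      (e2 G t : ℝ) ≤ 2 * β * k * (t.card - k))
    (hs : 2 * β * k * (s.card - k) < (e2 G s : ℝ)) {x y : V} (hx : x ∈ s) (hy : y ∈ s)
    (hxy : x ≠ y) : Small G s k ν x ∨ Small G s k ν y := by
  classical
  obtain ⟨A, T, hAs, hTs, hxA, hyA, hxT, hyT, hAT, hcl, hTk, hTk'⟩ := exists_cut_in G hG hx hy hxy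
  have hsplit := e2_split G hcl
  have hc1 : (A ∪ T).card + (s \ A).card = s.card + T.card := by
    rw [Finset.card_union_of_disjoint hAT]
    have := Finset.card_sdiff_add_card_eq_card hAs
    omega
  have hlt1 : (A ∪ T).card < s.card := by
    have : (A ∪ T) ⊂ s := by
      rw [Finset.ssubset_iff_of_subset (Finset.union_subset hAs hTs)]
      exact ⟨y, hy, fun h => (Finset.mem_union.1 h).elim hyA hyT⟩
    exact Finset.card_lt_card this
  have hlt2 : (s \ A).card < s.card := by
    have : (s \ A) ⊂ s := by
      rw [Finset.ssubset_iff_of_subset Finset.sdiff_subset]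
      exact ⟨x, hx, fun h => (Finset.mem_sdiff.1 h).2 hxA⟩
    exact Finset.card_lt_card this
  have hβ0 : 0 ≤ β * k := by linarith
  by_cases h1 : ν * k ≤ (A ∪ T).card
  · by_cases h2 : ν * k ≤ (s \ A).card
    · -- both sides are large: contradiction
      exfalso
      have i1 := IH _ hlt1 h1
      have i2 := IH _ hlt2 h2
      have hc1' : ((A ∪ T).card : ℝ) + (s \ A).card = s.card + T.card := by exact_mod_cast hc1
      have hsplit' : (e2 G s : ℝ) ≤ e2 G (A ∪ T) + e2 G (s \ A) +
          (if G.Adj x y then 2 else 0) := by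
        have : (e2 G s : ℝ) ≤ ((e2 G (A ∪ T) + e2 G (s \ A) +
          (if G.Adj x y then 2 else 0) : ℕ) : ℝ) := by exact_mod_cast hsplit
        push_cast at this
        exact this
      have hTk0 : (T.card : ℝ) ≤ k := by exact_mod_cast hTk
      have e : 2 * β * k * (((A ∪ T).card : ℝ) - k) + 2 * β * k * ((s \ A).card - k) =
          2 * (β * k) * (s.card - k) + 2 * (β * k) * (T.card - k) := by
        have : ((s \ A).card : ℝ) = s.card + T.card - (A ∪ T).card := by linarith
        rw [this]; ring
      by_cases hadj : G.Adj x y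
      · rw [if_pos hadj] at hsplit'
        have h3 : (T.card : ℝ) + 1 ≤ k := by exact_mod_cast hTk' hadj
        have h4 : 2 * (β * k) * (T.card - k) ≤ 2 * (β * k) * (-1) :=
          mul_le_mul_of_nonneg_left (by linarith) (by linarith)
        nlinarith
      · rw [if_neg hadj] at hsplit'
        have h4 : 2 * (β * k) * (T.card - k) ≤ 0 :=
          mul_nonpos_of_nonneg_of_nonpos (by linarith) (by linarith)
        nlinarith
    · -- the side of `y` is small
      right
      push Not at h2
      let S : Finset V := if G.Adj x y then insert x T else T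
      refine ⟨s \ (A ∪ T), S, Finset.sdiff_subset, ?_, ?_, ?_, ?_⟩
      · rw [Finset.mem_sdiff, Finset.mem_union]
        exact ⟨hy, fun h => h.elim hyA hyT⟩
      · show (if G.Adj x y then insert x T else T).card ≤ k
        split_ifs with hadj
        · exact (Finset.card_insert_le _ _).trans (hTk' hadj)
        · exact hTk
      · have hsub : s \ (A ∪ T) ∪ S ⊆ insert x (s \ A) := by
          intro v hv
          rw [Finset.mem_union, Finset.mem_sdiff, Finset.mem_union] at hv
          rw [Finset.mem_insert, Finset.mem_sdiff]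
          rcases hv with hv | hv
          · exact Or.inr ⟨hv.1, fun h => hv.2 (Or.inl h)⟩
          · have hv' : v = x ∨ v ∈ T := by
              change v ∈ (if G.Adj x y then insert x T else T) at hv
              split_ifs at hv
              · exact Finset.mem_insert.1 hv
              · exact Or.inr hv
            rcases hv' with rfl | hv'
            · exact Or.inl rfl
            · exact Or.inr ⟨hTs hv', fun h => (Finset.disjoint_left.1 hAT h) hv'⟩
        have h3 : (s \ (A ∪ T) ∪ S).card ≤ (s \ A).card + 1 :=
          (Finset.card_le_card hsub).trans (Finset.card_insert_le _ _)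
        have h4 : ((s \ (A ∪ T) ∪ S).card : ℝ) ≤ (s \ A).card + 1 := by exact_mod_cast h3
        linarith
      · intro u hu w hw huw
        rw [Finset.mem_sdiff, Finset.mem_union, not_or] at hu
        by_cases hwA : w ∈ A
        · rcases hcl w hwA u hu.1 huw.symm with h | h | h
          · exact absurd h hu.2.1
          · exact absurd h hu.2.2
          · rw [Finset.mem_union]
            right
            show w ∈ (if G.Adj x y then insert x T else T)
            rw [h.1, if_pos (by rw [← h.1, ← h.2]; exact huw.symm)]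
            exact Finset.mem_insert_self _ _
        · rw [Finset.mem_union, Finset.mem_sdiff, Finset.mem_union]
          by_cases hwT : w ∈ T
          · right
            show w ∈ (if G.Adj x y then insert x T else T)
            split_ifs
            · exact Finset.mem_insert_of_mem hwT
            · exact hwT
          · left
            exact ⟨hw, fun h => h.elim hwA hwT⟩
  · -- the side of `x` is small
    left
    push Not at h1
    let S : Finset V := if G.Adj x y then insert y T else T
    refine ⟨A, S, hAs, hxA, ?_, ?_, ?_⟩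
    · show (if G.Adj x y then insert y T else T).card ≤ k
      split_ifs with hadj
      · exact (Finset.card_insert_le _ _).trans (hTk' hadj)
      · exact hTk
    · have hsub : A ∪ S ⊆ insert y (A ∪ T) := by
        intro v hv
        rw [Finset.mem_union] at hv
        rw [Finset.mem_insert, Finset.mem_union]
        rcases hv with hv | hv
        · exact Or.inr (Or.inl hv)
        · change v ∈ (if G.Adj x y then insert y T else T) at hv
          split_ifs at hv
          · rcases Finset.mem_insert.1 hv with h | h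
            · exact Or.inl h
            · exact Or.inr (Or.inr h)
          · exact Or.inr (Or.inr hv)
      have h3 : (A ∪ S).card ≤ (A ∪ T).card + 1 :=
        (Finset.card_le_card hsub).trans (Finset.card_insert_le _ _)
      have h4 : ((A ∪ S).card : ℝ) ≤ (A ∪ T).card + 1 := by exact_mod_cast h3
      linarith
    · intro u hu w hw huw
      rw [Finset.mem_union]
      rcases hcl u hu w hw huw with h | h | h
      · exact Or.inl h
      · right
        show w ∈ (if G.Adj x y then insert y T else T)
        split_ifs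
        · exact Finset.mem_insert_of_mem h
        · exact h
      · right
        show w ∈ (if G.Adj x y then insert y T else T)
        rw [h.1, h.2] at huw
        rw [if_pos huw, h.2]
        exact Finset.mem_insert_self _ _

/-- Two vertices of a small fragment. -/
theorem nW_add_le {k : ℕ} (hG : LocalConnLe G k) {s Z : Finset V} {u v : V} (huv : u ≠ v)
    (hu : ∀ w ∈ s, G.Adj u w → w ∈ Z) (hv : ∀ w ∈ s, G.Adj v w → w ∈ Z) :
    nW G u s + nW G v s ≤ Z.card + k := by
  classical
  rw [nW, nW, ← Finset.card_union_add_card_inter]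
  refine Nat.add_le_add (Finset.card_le_card ?_) ((Finset.card_le_card ?_).trans
    (card_common_le hG huv))
  · intro w hw
    rw [Finset.mem_union, Finset.mem_filter, Finset.mem_filter] at hw
    rcases hw with hw | hw
    · exact hu w hw.1 hw.2
    · exact hv w hw.1 hw.2
  · intro w hw
    rw [Finset.mem_inter, Finset.mem_filter, Finset.mem_filter] at hw
    rw [Finset.mem_inter, mem_neighborFinset, mem_neighborFinset]
    exact ⟨hw.1.2, hw.2.2⟩

/-- Discharging. -/
theorem sum_excess_le {k : ℕ} (hG : LocalConnLe G k) {q r ν : ℝ} (hq : 0 ≤ q)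
    (hr2 : r ^ 2 ≤ q) (h1 : (ν - 1) * k + 1 ≤ 2 * q * k) (h2 : (ν - 2 * r) * k + 2 ≤ q * k)
    {s s' : Finset V} (hs' : s' ⊆ s) (hsm : ∀ v ∈ s', Small G s k ν v)
    (hsm' : ∀ v ∈ s, Small G s k ν v → v ∈ s') :
    ∑ v ∈ s', ((nW G v s : ℝ) - k) ≤ q * k * s'.card := by
  classical
  choose! X S hXs hvX hSk hXS hcl using hsm
  set ex : V → ℝ := fun v => (nW G v s : ℝ) - k with hex
  set H := s'.filter fun v => q * k < ex v with hH
  have hHs : H ⊆ s' := Finset.filter_subset _ _
  have hqk : 0 ≤ q * k := by positivity
  let Wf : V → Finset V := fun v => (X v).filter fun w => G.Adj v w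
  have hWcard : ∀ v ∈ s', ex v ≤ (Wf v).card := by
    intro v hv
    have h3 : nW G v s ≤ (Wf v).card + (S v).card := by
      rw [nW]
      refine (Finset.card_le_card (t := Wf v ∪ S v) ?_).trans (Finset.card_union_le _ _)
      intro w hw
      rw [Finset.mem_filter] at hw
      have h4 := hcl v hv v (hvX v hv) w hw.1 hw.2
      rw [Finset.mem_union] at h4 ⊢
      rcases h4 with h4 | h4
      · exact Or.inl (Finset.mem_filter.2 ⟨h4, hw.2⟩)
      · exact Or.inr h4
    have h4 : (nW G v s : ℝ) ≤ (Wf v).card + (S v).card := by exact_mod_cast h3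
    have h5 : ((S v).card : ℝ) ≤ k := by exact_mod_cast hSk v hv
    show (nW G v s : ℝ) - k ≤ _
    linarith
  have hXs' : ∀ v ∈ s', ∀ y ∈ X v, y ∈ s' := by
    intro v hv y hy
    exact hsm' y (hXs v hv hy) ⟨X v, S v, hXs v hv, hy, hSk v hv, hXS v hv, hcl v hv⟩
  have hpair : ∀ v ∈ s', ∀ y ∈ X v, y ≠ v → ex y + ex v ≤ (ν - 1) * k + 1 := by
    intro v hv y hy hne
    have h3 := nW_add_le G hG (s := s) (Z := X v ∪ S v) hne (hcl v hv y hy)
      (hcl v hv v (hvX v hv))
    have h4 : (nW G y s : ℝ) + nW G v s ≤ (X v ∪ S v).card + k := by exact_mod_cast h3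
    have h5 := hXS v hv
    show (nW G y s : ℝ) - k + ((nW G v s : ℝ) - k) ≤ _
    linarith
  have hXH : ∀ v ∈ H, ∀ y ∈ X v, y ≠ v → y ∉ H := by
    intro v hv y hy hne hyH
    have h3 := hpair v (hHs hv) y hy hne
    have h4 := (Finset.mem_filter.1 hv).2
    have h5 := (Finset.mem_filter.1 hyH).2
    linarith
  have hWf : ∀ v ∈ H, ∀ y ∈ Wf v, y ∈ s' \ H := by
    intro v hv y hy
    have h3 := Finset.mem_filter.1 hy
    rw [Finset.mem_sdiff]
    exact ⟨hXs' v (hHs hv) y h3.1, hXH v hv y h3.1 h3.2.ne.symm⟩
  let c : V → ℝ := fun v => 1 - q * k / ex v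
  have hexpos : ∀ v ∈ H, 0 < ex v := fun v hv =>
    lt_of_le_of_lt hqk (Finset.mem_filter.1 hv).2
  have hc0 : ∀ v ∈ H, 0 ≤ c v := by
    intro v hv
    have h3 := (Finset.mem_filter.1 hv).2
    have : q * k / ex v ≤ 1 := by rw [div_le_one (hexpos v hv)]; exact h3.le
    show 0 ≤ 1 - q * k / ex v
    linarith
  have hc1 : ∀ v ∈ H, c v ≤ 1 := by
    intro v hv
    have : 0 ≤ q * k / ex v := div_nonneg hqk (hexpos v hv).le
    show 1 - q * k / ex v ≤ 1
    linarith
  -- hubs
  have hhub : ∑ v ∈ H, (ex v - q * k) ≤ ∑ v ∈ H, ∑ y ∈ Wf v, c v := by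
    apply Finset.sum_le_sum
    intro v hv
    rw [Finset.sum_const, nsmul_eq_mul]
    have h3 := hWcard v (hHs hv)
    have h4 : ex v * c v = ex v - q * k := by
      show ex v * (1 - q * k / ex v) = _
      have := (hexpos v hv).ne'
      field_simp
    rw [← h4]
    exact mul_le_mul_of_nonneg_right h3 (hc0 v hv)
  have hswap : ∑ v ∈ H, ∑ y ∈ Wf v, c v =
      ∑ y ∈ s' \ H, ∑ v ∈ H.filter (fun v => y ∈ Wf v), c v := by
    apply Finset.sum_comm'
    intro v y
    constructor
    · rintro ⟨h3, h4⟩
      exact ⟨Finset.mem_filter.2 ⟨h3, h4⟩, hWf v h3 y h4⟩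
    · rintro ⟨h3, -⟩
      exact Finset.mem_filter.1 h3
  -- low vertices
  have hlow : ∀ y ∈ s' \ H, ex y + ∑ v ∈ H.filter (fun v => y ∈ Wf v), c v ≤ q * k := by
    intro y hy
    rw [Finset.mem_sdiff] at hy
    rcases Finset.eq_empty_or_nonempty (H.filter (fun v => y ∈ Wf v)) with he | hne
    · rw [he, Finset.sum_empty, add_zero]
      by_contra hcon
      exact hy.2 (Finset.mem_filter.2 ⟨hy.1, not_le.1 hcon⟩)
    · obtain ⟨v1, hv1, hmax⟩ := Finset.exists_max_image _ ex hne
      have hv1' := Finset.mem_filter.1 hv1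
      have hv1H := hv1'.1
      have hyX : y ∈ X v1 := (Finset.mem_filter.1 hv1'.2).1
      have hadj : G.Adj v1 y := (Finset.mem_filter.1 hv1'.2).2
      have hcard : (H.filter (fun v => y ∈ Wf v)).card ≤ k + 1 := by
        have hsub : H.filter (fun v => y ∈ Wf v) ⊆ insert v1 (S v1) := by
          intro v hv
          rw [Finset.mem_insert]
          by_cases hvv : v = v1
          · exact Or.inl hvv
          · right
            have hv' := Finset.mem_filter.1 hv
            have h3 : G.Adj v y := (Finset.mem_filter.1 hv'.2).2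
            have h4 := hcl v1 (hHs hv1H) y hyX v (hs' (hHs hv'.1)) h3.symm
            rw [Finset.mem_union] at h4
            rcases h4 with h4 | h4
            · exact absurd hv'.1 (hXH v1 hv1H v h4 hvv)
            · exact h4
        exact (Finset.card_le_card hsub).trans ((Finset.card_insert_le _ _).trans
          (Nat.add_le_add_right (hSk v1 (hHs hv1H)) 1))
      have hsum : ∑ v ∈ H.filter (fun v => y ∈ Wf v), c v ≤ (k + 1) * c v1 := by
        calc ∑ v ∈ H.filter (fun v => y ∈ Wf v), c v
            ≤ ∑ v ∈ H.filter (fun v => y ∈ Wf v), c v1 := by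
              apply Finset.sum_le_sum
              intro v hv
              have h3 := hmax v hv
              have h4 := hexpos v (Finset.mem_filter.1 hv).1
              have h5 : q * k / ex v1 ≤ q * k / ex v := div_le_div_of_nonneg_left hqk h4 h3
              show 1 - q * k / ex v ≤ 1 - q * k / ex v1
              linarith
          _ = (H.filter (fun v => y ∈ Wf v)).card * c v1 := by
              rw [Finset.sum_const, nsmul_eq_mul]
          _ ≤ (k + 1) * c v1 := by
              apply mul_le_mul_of_nonneg_right _ (hc0 v1 hv1H)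
              exact_mod_cast hcard
      have h3 := hpair v1 (hHs hv1H) y hyX hadj.ne.symm
      have h4 := hc1 v1 hv1H
      have ht := hexpos v1 hv1H
      set t := ex v1 with ht'
      have h5 : 2 * r * k ≤ t + q * k ^ 2 / t := by
        have h6 : 2 * r * k * t ≤ t * t + q * k ^ 2 := by
          nlinarith [sq_nonneg (t - r * k), mul_le_mul_of_nonneg_right hr2 (sq_nonneg (k : ℝ))]
        have h7 : 2 * r * k = (2 * r * k * t) / t := by field_simp
        have h8 : t + q * k ^ 2 / t = (t * t + q * k ^ 2) / t := by field_simp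
        rw [h7, h8]
        exact div_le_div_of_nonneg_right h6 ht.le
      have h6 : (k : ℝ) * c v1 = k - q * k ^ 2 / t := by
        show (k : ℝ) * (1 - q * k / t) = _
        ring
      have h7 : ((k : ℝ) + 1) * c v1 ≤ k - q * k ^ 2 / t + 1 := by
        rw [add_mul, h6, one_mul]; linarith
      have h8 : ex y + t ≤ (ν - 1) * k + 1 := h3
      linarith
  -- total
  have hsplit : ∑ v ∈ s', ex v = ∑ v ∈ s' \ H, ex v + ∑ v ∈ H, ex v :=
    (Finset.sum_sdiff hHs).symm
  have h3 : ∑ v ∈ H, ex v = ∑ v ∈ H, (ex v - q * k) + q * k * H.card := by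
    have h6 : ∑ v ∈ H, (ex v - q * k) = ∑ v ∈ H, ex v - H.card * (q * k) := by
      rw [Finset.sum_sub_distrib, Finset.sum_const, nsmul_eq_mul]
    rw [h6]; ring
  have h4 := Finset.sum_le_sum hlow
  rw [Finset.sum_add_distrib, Finset.sum_const, nsmul_eq_mul] at h4
  have h5 : (s'.card : ℝ) = (s' \ H).card + H.card := by
    exact_mod_cast (Finset.card_sdiff_add_card_eq_card hHs).symm
  show ∑ v ∈ s', ex v ≤ _
  rw [hsplit, h3, h5]
  rw [hswap] at hhub
  nlinarith

end H34.LK
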