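import Mathlib
import Pool.Agent.H34.LK.Red2

/-!
The induction: `e(G) ≤ (6/7) k (n - k)` for `n ≥ 2.401 k`, `k` large.
-/

namespace H34.LK

set_option linter.unusedSectionVars false

open SimpleGraph Finset Pool.Agent.LocalConn

theorem main_induction : ∃ k0 : ℕ, ∀ k : ℕ, k0 ≤ k →
    ∀ (V : Type) [Fintype V] [DecidableEq V] (G : SimpleGraph V) [DecidableRel G.Adj],
      LocalConnLe G k →
      (∀ s : Finset V, (s.card : ℝ) ≤ 7000 * k →
        (e2 G s : ℝ) ≤ k * s.card + (7 / 10000) * k ^ 2) ∧
      ∀ (m : ℕ) (s : Finset V), s.card = m → (2.401 : ℝ) * k ≤ s.card →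
      (e2 G s : ℝ) ≤ 2 * (6 / 7) * k * (s.card - k) := by
  classical
  obtain ⟨k1, hk1⟩ := dense_finset 7000 (7 / 10000) (by norm_num)
  refine ⟨max k1 100000, fun k hk V _ _ G _ hG => ?_⟩
  have hkk1 : k1 ≤ k := (le_max_left _ _).trans hk
  have hk2 : 100000 ≤ k := (le_max_right _ _).trans hk
  have hk2' : (100000 : ℝ) ≤ k := by exact_mod_cast hk2
  have hk0 : (0 : ℝ) < k := by linarith
  have hdense := hk1 k hkk1 V G hG
  refine ⟨hdense, ?_⟩
  intro m
  induction m using Nat.strong_induction_on with
  | _ m ih =>
    intro s hsm hs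
    rcases le_or_gt (s.card : ℝ) (7000 * k) with hsmall | hlarge
    · have h1 := hdense s hsmall
      nlinarith
    · by_contra hcon
      push Not at hcon
      have IH : ∀ t : Finset V, t.card < s.card → (2.401 : ℝ) * k ≤ t.card →
          (e2 G t : ℝ) ≤ 2 * (6 / 7) * k * (t.card - k) := by
        intro t ht ht2
        exact ih t.card (by omega) t rfl ht2
      have hβ : (1 : ℝ) ≤ 6 / 7 * k := by linarith
      have hsm2 : ∀ x ∈ s, ∀ y ∈ s, x ≠ y → Small G s k 2.401 x ∨ Small G s k 2.401 y :=
        fun x hx y hy hxy => small_or_small G hG hβ IH hcon hx hy hxy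
      set s' := s.filter fun v => Small G s k 2.401 v with hs'
      have hs's : s' ⊆ s := Finset.filter_subset _ _
      have hone : (s \ s').card ≤ 1 := by
        rw [Finset.card_le_one]
        intro a ha b hb
        rw [Finset.mem_sdiff] at ha hb
        by_contra hab
        rcases hsm2 a ha.1 b hb.1 hab with h | h
        · exact ha.2 (Finset.mem_filter.2 ⟨ha.1, h⟩)
        · exact hb.2 (Finset.mem_filter.2 ⟨hb.1, h⟩)
      have hex := sum_excess_le G hG (q := 0.714) (r := 0.8449) (ν := 2.401) (by norm_num)
        (by norm_num) (by nlinarith) (by nlinarith) hs's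
        (fun v hv => (Finset.mem_filter.1 hv).2)
        (fun v hv hv' => Finset.mem_filter.2 ⟨hv, hv'⟩)
      rw [Finset.sum_sub_distrib, Finset.sum_const, nsmul_eq_mul] at hex
      have hrest : ∑ v ∈ s \ s', (nW G v s : ℝ) ≤ s.card := by
        calc ∑ v ∈ s \ s', (nW G v s : ℝ) ≤ ∑ v ∈ s \ s', (s.card : ℝ) := by
              apply Finset.sum_le_sum
              intro v _
              exact_mod_cast nW_le G v s
          _ = (s \ s').card * s.card := by rw [Finset.sum_const, nsmul_eq_mul]
          _ ≤ 1 * s.card := by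
              apply mul_le_mul_of_nonneg_right _ (by positivity)
              exact_mod_cast hone
          _ = s.card := one_mul _
      have htot : (e2 G s : ℝ) = ∑ v ∈ s \ s', (nW G v s : ℝ) + ∑ v ∈ s', (nW G v s : ℝ) := by
        rw [Finset.sum_sdiff hs's, e2]
        push_cast
        rfl
      have hs'c : (s'.card : ℝ) ≤ s.card := by exact_mod_cast Finset.card_le_card hs's
      have h2 : (e2 G s : ℝ) ≤ s.card + 1.714 * k * s.card := by
        have : (1.714 : ℝ) * k * s'.card ≤ 1.714 * k * s.card :=
          mul_le_mul_of_nonneg_left hs'c (by positivity)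
        linarith
      have h3 : (s.card : ℝ) * 100000 ≤ s.card * k :=
        mul_le_mul_of_nonneg_left hk2' (by positivity)
      have h4 : 7000 * k * (k : ℝ) < s.card * k := mul_lt_mul_of_pos_right hlarge hk0
      nlinarith

/-- **Main theorem**: for large `k`, a graph on `n` vertices with local connectivity at most `k`
has at most `(6/7) k n` edges. -/
theorem edges_le : ∃ k0 : ℕ, ∀ k : ℕ, k0 ≤ k →
    ∀ (V : Type) [Fintype V] [DecidableEq V] (G : SimpleGraph V) [DecidableRel G.Adj],
      LocalConnLe G k → (G.edgeFinset.card : ℝ) ≤ 6 / 7 * k * Fintype.card V := by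
  obtain ⟨k0, hk0⟩ := main_induction
  refine ⟨k0, fun k hk V _ _ G _ hG => ?_⟩
  obtain ⟨h1, h2⟩ := hk0 k hk V G hG
  have he : (e2 G univ : ℝ) = 2 * G.edgeFinset.card := by exact_mod_cast e2_univ G
  have hc : ((univ : Finset V).card : ℝ) = Fintype.card V := by rw [Finset.card_univ]
  have hk' : (0 : ℝ) ≤ k := by positivity
  rcases le_or_gt ((2.401 : ℝ) * k) (Fintype.card V) with h | h
  · have h3 := h2 _ univ rfl (by rw [hc]; exact h)
    rw [he, hc] at h3
    nlinarith
  · rcases le_or_gt (k : ℝ) (Fintype.card V) with h' | h'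
    · have h3 := h1 univ (by rw [hc]; nlinarith)
      rw [he, hc] at h3
      nlinarith
    · have h4 : e2 G univ ≤ Fintype.card V * Fintype.card V := by
        rw [e2]
        calc ∑ v : V, nW G v univ ≤ ∑ v : V, Fintype.card V := by
              apply Finset.sum_le_sum
              intro v _
              have := nW_le G v univ
              rwa [Finset.card_univ] at this
          _ = Fintype.card V * Fintype.card V := by simp [Finset.card_univ]
      have h5 : (e2 G univ : ℝ) ≤ Fintype.card V * Fintype.card V := by exact_mod_cast h4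
      rw [he] at h5
      nlinarith

end H34.LK
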